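import Pool.Agent.H846.Swp.Defs
import Pool.Graph.R_seed8.H914R2.GConv3
import Pool.Graph.R_seed8.H914R2.CPart
import Pool.Graph.R_seed8.W552.AS

/-!
# Cycles on `X × X` and the exchange of the factors
-/

open CategoryTheory AlgebraicGeometry Polynomial

universe u v

namespace Pool.Agent.H846.Swp

open Pool.Agent.H914 Pool.Agent.H914.VarClass Pool.Agent.H914.VarClass.Obj
  Pool.Agent.H914.WeilCohomology Pool.Agent.R911.Iso

variable {k : Type u} [Field k] {𝒱 : VarClass k} {ops : CycleOps 𝒱}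
  {W : WeilCohomology.{u, v} ops} {X : 𝒱.Obj}

/-- The cycle on `X × X` obtained from `z` by the exchange of the two factors. -/
noncomputable def exchange (ops : CycleOps 𝒱) {X : 𝒱.Obj} (z : (X.prod X).Cycles) :
    (X.prod X).Cycles :=
  ops.pull (swap X X) z

/-- The endomorphism `φ × 1`. -/
noncomputable abbrev m1 (φ : X ⟶ X) : X.prod X ⟶ X.prod X := partialMap φ

/-- The endomorphism `1 × φ`. -/
noncomputable def m2 (φ : X ⟶ X) : X.prod X ⟶ X.prod X :=
  Obj.lift (fst X X) (snd X X ≫ φ)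

lemma map_m1 (φ : X ⟶ X) (a b : W.H X) :
    W.map (m1 φ) (W.map (fst X X) a * W.map (snd X X) b) =
      W.map (fst X X) (W.map φ a) * W.map (snd X X) b := by
  have e1 : m1 φ ≫ fst X X = fst X X ≫ φ := Obj.lift_fst _ _
  have e2 : m1 φ ≫ snd X X = snd X X := Obj.lift_snd _ _
  rw [map_mul, ← W.map_comp, ← W.map_comp, e1, e2, W.map_comp]

lemma map_m2 (φ : X ⟶ X) (a b : W.H X) :
    W.map (m2 φ) (W.map (fst X X) a * W.map (snd X X) b) =
      W.map (fst X X) a * W.map (snd X X) (W.map φ b) := by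
  have e1 : m2 φ ≫ fst X X = fst X X := Obj.lift_fst _ _
  have e2 : m2 φ ≫ snd X X = snd X X ≫ φ := Obj.lift_snd _ _
  rw [map_mul, ← W.map_comp, ← W.map_comp, e1, e2, W.map_comp]

lemma corr_tmul (u : W.H X) {j l : ℕ} {v a : W.H X} (hv : v ∈ W.gr X j) (ha : a ∈ W.gr X l) :
    W.corr (W.map (fst X X) u * W.map (snd X X) v) a =
      ((-1 : W.K) ^ (j * l) * W.tr X (u * a)) • v := by
  rw [corr_apply, mul_assoc, W.comm (W.map_mem (snd X X) hv) (W.map_mem (fst X X) ha),
    mul_smul_comm, map_smul, ← mul_assoc, ← map_mul, push_snd, smul_smul]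

lemma corr_m1 (φ : X ⟶ X) (x : W.H (X.prod X)) (a : W.H X) :
    W.corr (W.map (m1 φ) x) a = W.corr x (W.push φ a) := by
  refine gr_induction (W.isInternal X) (p := fun a => W.corr (W.map (m1 φ) x) a =
    W.corr x (W.push φ a)) ?_ ?_ a
  swap
  · intro a b ha hb
    rw [map_add, map_add, map_add, ha, hb]
  intro l a ha
  refine W.kunneth_induction (p := fun x => W.corr (W.map (m1 φ) x) a =
    W.corr x (W.push φ a)) ?_ ?_ x
  · intro x y hx hy
    rw [map_add, corr_add, corr_add, LinearMap.add_apply, LinearMap.add_apply, hx, hy]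
  · intro i j u _ v hv
    rw [map_m1, corr_tmul _ hv ha, corr_tmul _ hv (gr_push φ ha), tr_map_adj]

lemma corr_m2 (φ : X ⟶ X) (x : W.H (X.prod X)) (a : W.H X) :
    W.corr (W.map (m2 φ) x) a = W.map φ (W.corr x a) := by
  refine gr_induction (W.isInternal X) (p := fun a => W.corr (W.map (m2 φ) x) a =
    W.map φ (W.corr x a)) ?_ ?_ a
  swap
  · intro a b ha hb
    rw [map_add, map_add, map_add, ha, hb]
  intro l a ha
  refine W.kunneth_induction (p := fun x => W.corr (W.map (m2 φ) x) a =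
    W.map φ (W.corr x a)) ?_ ?_ x
  · intro x y hx hy
    rw [map_add, corr_add, corr_add, LinearMap.add_apply, LinearMap.add_apply, hx, hy, map_add]
  · intro i j u _ v hv
    rw [map_m2, corr_tmul _ hv ha, corr_tmul _ (W.map_mem φ hv) ha, map_smul]

lemma map_sq (φ : X ⟶ X) (x : W.H (X.prod X)) :
    W.map (squareMap φ) x = W.map (m2 φ) (W.map (m1 φ) x) := by
  refine W.kunneth_induction (p := fun x => W.map (squareMap φ) x =
    W.map (m2 φ) (W.map (m1 φ) x)) ?_ ?_ x
  · intro x y hx hy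
    rw [map_add, map_add, map_add, hx, hy]
  · intro i j u _ v _
    rw [map_squareMap, map_m1, map_m2]

lemma m1_m2_comm (φ ψ : X ⟶ X) (x : W.H (X.prod X)) :
    W.map (m2 φ) (W.map (m1 ψ) x) = W.map (m1 ψ) (W.map (m2 φ) x) := by
  refine W.kunneth_induction (p := fun x => W.map (m2 φ) (W.map (m1 ψ) x) =
    W.map (m1 ψ) (W.map (m2 φ) x)) ?_ ?_ x
  · intro x y hx hy
    rw [map_add, map_add, map_add, map_add, hx, hy]
  · intro i j u _ v _
    rw [map_m1, map_m2, map_m2, map_m1]

lemma exchange_cl (z : (X.prod X).Cycles) :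
    W.cl _ (exchange ops z) = W.map (swap X X) (W.cl _ z) := W.cl_pull _ _

lemma swap_tmul (u v : W.H X) : W.map (swap X X) (W.map (fst X X) u * W.map (snd X X) v) =
    W.map (snd X X) u * W.map (fst X X) v := by
  rw [map_mul, ← W.map_comp, ← W.map_comp, swap_fst, swap_snd]

lemma swap_m1 (φ : X ⟶ X) (x : W.H (X.prod X)) :
    W.map (swap X X) (W.map (m1 φ) x) = W.map (m2 φ) (W.map (swap X X) x) := by
  refine W.kunneth_induction (p := fun x => W.map (swap X X) (W.map (m1 φ) x) =
    W.map (m2 φ) (W.map (swap X X) x)) ?_ ?_ x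
  · intro x y hx hy
    rw [map_add, map_add, map_add, map_add, hx, hy]
  · intro i j u hu v hv
    rw [map_m1, swap_tmul, swap_tmul, W.comm (W.map_mem (snd X X) (W.map_mem φ hu))
      (W.map_mem (fst X X) hv), W.comm (W.map_mem (snd X X) hu) (W.map_mem (fst X X) hv),
      map_smul, map_m2]

lemma swap_m2 (φ : X ⟶ X) (x : W.H (X.prod X)) :
    W.map (swap X X) (W.map (m2 φ) x) = W.map (m1 φ) (W.map (swap X X) x) := by
  refine W.kunneth_induction (p := fun x => W.map (swap X X) (W.map (m2 φ) x) =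
    W.map (m1 φ) (W.map (swap X X) x)) ?_ ?_ x
  · intro x y hx hy
    rw [map_add, map_add, map_add, map_add, hx, hy]
  · intro i j u hu v hv
    rw [map_m2, swap_tmul, swap_tmul, W.comm (W.map_mem (snd X X) hu)
      (W.map_mem (fst X X) (W.map_mem φ hv)), W.comm (W.map_mem (snd X X) hu)
      (W.map_mem (fst X X) hv), map_smul, map_m1]

/-- Numerically trivial cycles in terms of cohomology. -/
lemma numZero_iff {Z : 𝒱.Obj} {c : ℕ} {z : Z.Cycles} (hz : Z.IsCyc c z) (hc : c ≤ Z.dim) :
    NumZero ops Z c z ↔ ∀ w, Z.IsCyc (Z.dim - c) w → W.tr Z (W.cl Z z * W.cl Z w) = 0 := by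
  have key : ∀ w, Z.IsCyc (Z.dim - c) w → W.tr Z (W.cl Z z * W.cl Z w) =
      (Z.V.degCycle (ops.mul z w) : W.K) := by
    intro w hw
    have h1 := ops.mul_mem hz hw
    rw [show c + (Z.dim - c) = Z.dim by omega] at h1
    rw [← W.cl_mul, W.tr_cl h1]
  constructor
  · intro h w hw
    rw [key w hw, h w hw, Rat.cast_zero]
  · intro h w hw
    have h1 := h w hw
    rw [key w hw] at h1
    exact_mod_cast h1

/-- Pull-backs of numerically trivial cycles along endomorphisms. -/
lemma numZero_pull {Z : 𝒱.Obj} {c : ℕ} {z : Z.Cycles} (hz : Z.IsCyc c z) (hc : c ≤ Z.dim)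
    (h : NumZero ops Z c z) (g : Z ⟶ Z) (W : WeilCohomology.{u, v} ops) :
    NumZero ops Z c (ops.pull g z) := by
  rw [numZero_iff (W := W) (ops.pull_mem g hz) hc]
  intro w hw
  rw [W.cl_pull, tr_map_adj, ← W.cl_push]
  exact (numZero_iff (W := W) hz hc).1 h _ (ops.push_mem g hw (by omega))

/-- The Riemann hypothesis for the endomorphism `φ`, relative to `Q`. -/
def Rh (W : WeilCohomology.{u, v} ops) (φ : X ⟶ X) (Q : ℕ) : Prop :=
  ∀ i, ∃ P : ℚ[X], P ≠ 0 ∧ (∀ a ∈ W.gr X i, ev (W.map φ).toLinearMap P a = 0) ∧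
    ∀ z : ℂ, aeval z P = 0 → ‖z‖ ^ 2 = (Q : ℝ) ^ i

lemma proj_map (φ : X ⟶ X) (i : ℕ) (y : W.H X) :
    proj (W.isInternal X) i (W.map φ y) = W.map φ (proj (W.isInternal X) i y) := by
  refine gr_induction (W.isInternal X) (p := fun y => proj (W.isInternal X) i (W.map φ y) =
    W.map φ (proj (W.isInternal X) i y)) ?_ ?_ y
  · intro j y hy
    by_cases hij : j = i
    · subst hij
      rw [proj_same _ hy, proj_same _ (W.map_mem φ hy)]
    · rw [proj_ne _ hy hij, proj_ne _ (W.map_mem φ hy) hij, map_zero]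
  · intro y y' hy hy'
    rw [map_add, map_add, map_add, map_add, hy, hy']

/-- An eigenclass of the square of `φ` for the eigenvalue `Q ^ c` has degree `c`. -/
lemma mem_gr_of_eigen {φ : X ⟶ X} {Q c : ℕ} (hQ : 1 < Q) (hR : Rh W φ Q) {y : W.H X}
    (hy : W.map φ (W.map φ y) = (Q : W.K) ^ c • y) : y ∈ W.gr X c := by
  have h1 : ∀ i ≠ c, proj (W.isInternal X) i y = 0 := by
    intro i hi
    set z := proj (W.isInternal X) i y with hz
    have hzi : z ∈ W.gr X i := proj_mem _ _ _
    have h2 : W.map φ (W.map φ z) = (Q : W.K) ^ c • z := by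
      rw [hz, ← proj_map, ← proj_map, hy, map_smul]
    obtain ⟨P, hP0, hPa, hPz⟩ := hR i
    have hcop : IsCoprime P (Polynomial.X ^ 2 - C ((Q : ℚ) ^ c)) := by
      rw [Polynomial.isCoprime_iff_aeval_ne_zero_of_isAlgClosed ℚ ℂ]
      intro a
      by_contra h0
      push Not at h0
      have h3 := hPz a h0.1
      have h4 := h0.2
      rw [map_sub, map_pow, aeval_X, aeval_C, sub_eq_zero] at h4
      have h5 : ‖a‖ ^ 2 = (Q : ℝ) ^ c := by
        rw [← norm_pow, h4]
        simp
      rw [h3] at h5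
      apply hi
      have h6 : (1 : ℝ) < Q := by exact_mod_cast hQ
      exact (pow_right_injective₀ (by linarith) h6.ne') h5
    obtain ⟨u, v, huv⟩ := hcop
    have h3 : ev (W.map φ).toLinearMap (Polynomial.X ^ 2 - C ((Q : ℚ) ^ c)) z = 0 := by
      rw [map_sub, map_pow, ev_X, ev_C, LinearMap.sub_apply, LinearMap.smul_apply,
        Module.End.one_apply, pow_two, Module.End.mul_apply]
      push_cast
      rw [sub_eq_zero]
      exact h2
    have h4 : ev (W.map φ).toLinearMap (u * P + v * (Polynomial.X ^ 2 - C ((Q : ℚ) ^ c))) z =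
        z := by
      rw [huv, map_one, Module.End.one_apply]
    rw [map_add, map_mul, map_mul, LinearMap.add_apply, Module.End.mul_apply,
      Module.End.mul_apply, h3, hPa z hzi, map_zero, map_zero, add_zero] at h4
    exact h4.symm
  have h2 := sum_proj (W.isInternal X) (N := 2 * X.dim + 1)
    (fun i hi => W.gr_eq_bot X i (by omega))
  have h3 : y = ∑ i ∈ Finset.range (2 * X.dim + 1), proj (W.isInternal X) i y := by
    have h4 := congrArg (fun T : Module.End W.K (W.H X) => T y) h2
    simpa using h4.symm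
  rw [h3]
  apply Submodule.sum_mem
  intro i _
  by_cases hi : i = c
  · subst hi
    exact proj_mem _ _ _
  · rw [h1 i hi]
    exact Submodule.zero_mem _

/-- The intersection form is nondegenerate on the span of the algebraic classes of codimension `l`
if numerical and homological equivalence agree in this codimension. -/
lemma span_zero {l : ℕ} (hl : l ≤ X.dim) (hD : NumIsHom W X l) {y : W.H X}
    (hy : y ∈ spanCycles W X l) (h : ∀ b ∈ algClasses W X (X.dim - l), W.tr X (y * b) = 0) :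
    y = 0 := by
  rw [spanCycles_eq] at hy
  refine span_nondeg (bil W X) (algClasses W X l) (algClasses W X (X.dim - l)) (alg_zero l)
    (fun a ha b hb => alg_add ha hb) (fun q a ha => alg_smul q ha)
    (fun a ha b hb => alg_rat ha hb) ?_ y hy (fun b hb => h b hb)
  rintro _ ⟨z, hz, rfl⟩ h0
  refine hD z hz ?_ trivial
  rw [numZero_iff (W := W) hz hl]
  intro w hw
  exact h0 _ ⟨w, hw, rfl⟩

/-- The image of an algebraic class under a numerically trivial correspondence is numerically
trivial. -/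
lemma corr_numZero {l : ℕ} (hl : l ≤ X.dim) {z : (X.prod X).Cycles}
    (hz : (X.prod X).IsCyc (2 * l) z) (hnum : NumZero ops (X.prod X) (2 * l) z)
    (hD : NumIsHom W X l) {b : W.H X} (hb : b ∈ algClasses W X (X.dim - l)) :
    W.corr (W.cl _ z) b = 0 := by
  obtain ⟨w, hw, rfl⟩ := hb
  have hdim := dim_prod (𝒱 := 𝒱) X X
  have h1 : W.corr (W.cl _ z) (W.cl X w) =
      W.cl X (ops.push (snd X X) (ops.mul z (ops.pull (fst X X) w))) := by
    rw [corr_apply, W.cl_push, W.cl_mul, W.cl_pull]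
  have h2 : X.IsCyc l (ops.push (snd X X) (ops.mul z (ops.pull (fst X X) w))) := by
    apply ops.push_mem _ (ops.mul_mem hz (ops.pull_mem _ hw))
    omega
  rw [h1]
  refine hD _ h2 ?_ trivial
  rw [numZero_iff (W := W) h2 hl]
  intro w' hw'
  rw [W.cl_push, W.tr_push, W.cl_mul, mul_assoc, W.cl_pull, ← W.cl_pull (fst X X),
    ← W.cl_pull (snd X X), ← W.cl_mul]
  apply (numZero_iff (W := W) hz (by omega)).1 hnum
  have h3 := ops.mul_mem (ops.pull_mem (fst X X) hw) (ops.pull_mem (snd X X) hw')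
  rwa [show X.dim - l + (X.dim - l) = (X.prod X).dim - 2 * l by omega] at h3

lemma numZero_sub {Z : 𝒱.Obj} {c : ℕ} {z w : Z.Cycles} (hz : Z.IsCyc c z) (hw : Z.IsCyc c w)
    (hc : c ≤ Z.dim) (h : NumZero ops Z c z) (h' : NumZero ops Z c w)
    (W : WeilCohomology.{u, v} ops) (hzw : Z.IsCyc c (z - w)) : NumZero ops Z c (z - w) := by
  rw [numZero_iff (W := W) hzw hc]
  intro y hy
  rw [map_sub, sub_mul, map_sub, (numZero_iff (W := W) hz hc).1 h y hy,
    (numZero_iff (W := W) hw hc).1 h' y hy, sub_zero]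

lemma isCyc_sub {Z : 𝒱.Obj} {c : ℕ} {z w : Z.Cycles} (hz : Z.IsCyc c z) (hw : Z.IsCyc c w) :
    Z.IsCyc c (z - w) := by
  have h := SmVar.IsCyc.add hz (SmVar.IsCyc.smul (-1) hw)
  rwa [neg_one_smul, ← sub_eq_add_neg] at h

/-- The powers of a partial Frobenius endomorphism. -/
lemma m1_pow (f : X ⟶ X) (n : ℕ) (x : W.H (X.prod X)) :
    ((W.map (m1 f)).toLinearMap ^ n) x = W.map (m1 (iter f n)) x := by
  refine W.kunneth_induction (p := fun x => ((W.map (m1 f)).toLinearMap ^ n) x =
    W.map (m1 (iter f n)) x) ?_ ?_ x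
  · intro x y hx hy
    rw [map_add, map_add, hx, hy]
  · intro i j u hu v _
    rw [map_m1, map_iter]
    clear hu
    induction n generalizing u with
    | zero => rfl
    | succ n ih =>
      rw [pow_succ, Module.End.mul_apply]
      have h1 : (W.map (m1 f)).toLinearMap (W.map (fst X X) u * W.map (snd X X) v) =
        W.map (fst X X) (W.map f u) * W.map (snd X X) v := map_m1 f u v
      rw [h1, ih, pow_succ, Module.End.mul_apply]
      rfl

lemma m1_iter (f : X ⟶ X) (a b : ℕ) (x : W.H (X.prod X)) :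
    W.map (m1 (iter f (a + b))) x = W.map (m1 (iter f a)) (W.map (m1 (iter f b)) x) := by
  rw [← m1_pow, ← m1_pow, ← m1_pow, pow_add, Module.End.mul_apply]

lemma iterate_eq {Y : 𝒱.Obj} (g : Y ⟶ Y) (n : ℕ) (x : W.H Y) :
    (W.map g)^[n] x = ((W.map g).toLinearMap ^ n) x := by
  rw [Module.End.pow_apply]
  rfl

lemma partial_apply {f : X ⟶ X} {q c : ℕ} (hS : PartialNumIsHom W X f q c) {m : ℕ} (hm : 1 ≤ m)
    {z : (X.prod X).Cycles} (hz : (X.prod X).IsCyc c z) (hn : NumZero ops (X.prod X) c z)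
    (h : W.map (m1 (iter f (2 * m))) (W.cl _ z) = (q : W.K) ^ (m * c) • W.cl _ z) :
    W.cl _ z = 0 := by
  refine hS m hm z hz hn ?_
  rw [IsScaled, iterate_eq]
  rw [← m1_pow] at h
  exact h

/-- **The main step.** -/
theorem core {f : X ⟶ X} {q : ℕ}
    (hF : FrobeniusOnCycles W (X.prod X) (squareMap f) q)
    {c : ℕ} (hS : PartialNumIsHom W X f q c) {ε : W.K} (hε : ε * ε = 1)
    (h : ∀ z, (X.prod X).IsCyc c z → NumZero ops (X.prod X) c z →
      W.cl _ z + ε • W.map (swap X X) (W.cl _ z) = 0) : NumIsHom W (X.prod X) c := by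
  intro z hz hnum _
  by_cases hc : c ≤ (X.prod X).dim
  swap
  · have h1 := W.cl_mem hz
    rw [W.gr_eq_bot _ _ (by omega)] at h1
    exact (Submodule.mem_bot _).1 h1
  have hsx : W.map (swap X X) (W.cl _ z) = -ε • W.cl _ z := by
    have h1 := congrArg (fun y => ε • y) (h z hz hnum)
    beta_reduce at h1
    rw [smul_add, smul_smul, hε, one_smul, smul_zero, add_comm] at h1
    rw [neg_smul]
    exact eq_neg_of_add_eq_zero_left h1
  obtain ⟨M, hM, hMe⟩ := frob_square hF hz
  have hMz := hMe 1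
  rw [mul_one] at hMz
  have hz1 : (X.prod X).IsCyc c (ops.pull (m1 (iter f M)) z) := ops.pull_mem _ hz
  have hz2 : (X.prod X).IsCyc c (ops.pull (m2 (iter f M)) z) := ops.pull_mem _ hz
  have hz' := isCyc_sub hz1 hz2
  have hn' := numZero_sub hz1 hz2 hc (numZero_pull hz hc hnum _ W) (numZero_pull hz hc hnum _ W)
    W hz'
  have h2 := h _ hz' hn'
  rw [map_sub, W.cl_pull, W.cl_pull, map_sub, swap_m1, swap_m2, hsx, map_smul, map_smul,
    ← smul_sub, smul_smul, mul_neg, hε, neg_smul, one_smul, neg_sub] at h2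
  have h12 : W.map (m1 (iter f M)) (W.cl _ z) = W.map (m2 (iter f M)) (W.cl _ z) := by
    rw [← two_smul W.K] at h2
    rcases smul_eq_zero.1 h2 with h3 | h3
    · exact absurd h3 two_ne_zero
    · exact sub_eq_zero.1 h3
  refine partial_apply hS hM hz hnum ?_
  have h5 : W.map (squareMap (iter f M)) (W.cl _ z) = (q : W.K) ^ (M * c) • W.cl _ z := hMz
  rw [map_sq] at h5
  rw [two_mul, m1_iter, h12, ← m1_m2_comm, h5]

/-- The condition of `core` if the Tate classes on `X` are algebraic. -/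
theorem partial_of_tate {f : X ⟶ X} {q : ℕ} (hq : 1 < q) (hRH : RiemannHypothesis W X f q)
    (hF : FrobeniusOnCycles W (X.prod X) (squareMap f) q)
    {c : ℕ} (hT : TateClassesAlgebraic W X f q c) (hD : ∀ l, 2 * l = c → NumIsHom W X l) :
    PartialNumIsHom W X f q c := by
  intro m hm z hz hnum he
  by_cases hc : c ≤ (X.prod X).dim
  swap
  · have h1 := W.cl_mem hz
    rw [W.gr_eq_bot _ _ (by omega)] at h1
    exact (Submodule.mem_bot _).1 h1
  have hq0 : (q : W.K) ≠ 0 := by
    have : q ≠ 0 := by omega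
    exact_mod_cast this
  obtain ⟨M, hM, hMe⟩ := frob_square hF hz
  set n := m * M with hn
  have hn1 : 1 ≤ n := Nat.mul_pos hm hM
  -- the two partial endomorphisms
  have e1 : W.map (m1 (iter f (2 * n))) (W.cl _ z) = (q : W.K) ^ (n * c) • W.cl _ z := by
    rw [IsScaled, iterate_eq] at he
    have he' : ((W.map (m1 f)).toLinearMap ^ (2 * m)) (W.cl _ z) =
        ((q : W.K) ^ (m * c)) • W.cl _ z := he
    have h2 : ∀ e, ((W.map (m1 f)).toLinearMap ^ (2 * m * e)) (W.cl _ z) =
        ((q : W.K) ^ (m * e * c)) • W.cl _ z := by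
      intro e
      induction e with
      | zero => simp
      | succ e ih =>
        rw [mul_add, mul_one, pow_add, Module.End.mul_apply, he', map_smul, ih, smul_smul,
          ← pow_add]
        congr 2
        ring
    rw [← m1_pow, hn, ← mul_assoc]
    exact h2 M
  have e2 : W.map (m2 (iter f (2 * n))) (W.cl _ z) = (q : W.K) ^ (n * c) • W.cl _ z := by
    have h1 := hMe (2 * m)
    rw [show M * (2 * m) = 2 * n by rw [hn]; ring, map_sq, e1, map_smul,
      show 2 * n * c = n * c + n * c by ring, pow_add, mul_smul] at h1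
    exact smul_right_injective _ (pow_ne_zero _ hq0) h1
  have hQ : 1 < q ^ n := Nat.one_lt_pow (by omega) hq
  have key : ∀ a, W.corr (W.cl _ z) a = 0 := by
    intro a
    set y := W.corr (W.cl _ z) a with hy
    have h3 : ((W.map f).toLinearMap ^ (2 * n)) y = (q : W.K) ^ (n * c) • y := by
      rw [← map_iter, hy, ← corr_m2, e2, corr_smul, LinearMap.smul_apply]
    have h3' : W.map (iter f n) (W.map (iter f n) y) = ((q ^ n : ℕ) : W.K) ^ c • y := by
      rw [map_iter, map_iter, ← Module.End.mul_apply, ← pow_add, ← two_mul, h3, pow_mul]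
      push_cast
      rfl
    have hyc : y ∈ W.gr X c := mem_gr_of_eigen hQ (riemann_pow hRH n) h3'
    rcases hT n hn1 y (by rw [IsScaled, iterate_eq]; exact h3) with h4 | ⟨l, rfl, h4⟩
    · exact h4
    · by_cases hln : l ≤ X.dim
      swap
      · rw [W.gr_eq_bot _ _ (by omega)] at hyc
        exact (Submodule.mem_bot _).1 hyc
      refine span_zero hln (hD l rfl) h4 ?_
      intro b hb
      have hex : (X.prod X).IsCyc (2 * l) (exchange ops z) := ops.pull_mem _ hz
      rw [hy, tr_corr_swap (W.cl_mem hz), ← exchange_cl,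
        corr_numZero hln hex (numZero_pull hz hc hnum _ W) (hD l rfl) hb, mul_zero, map_zero]
  apply corr_inj
  apply LinearMap.ext
  intro a
  rw [key a, LinearMap.zero_apply]

/-- Symmetric cycles and antisymmetric cycles. -/
theorem of_sign {f : X ⟶ X} {q : ℕ}
    (hF : FrobeniusOnCycles W (X.prod X) (squareMap f) q)
    {c : ℕ} (hS : PartialNumIsHom W X f q c) {ε : ℚ} (hε : ε * ε = 1)
    (h : SignNumIsHom W X ε c) : NumIsHom W (X.prod X) c := by
  have hε' : (ε : W.K) * (ε : W.K) = 1 := by exact_mod_cast hε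
  refine core hF hS (ε := (ε : W.K)) hε' ?_
  intro z hz hn
  by_cases hc : c ≤ (X.prod X).dim
  swap
  · have h1 := W.cl_mem hz
    rw [W.gr_eq_bot _ _ (by omega)] at h1
    rw [(Submodule.mem_bot _).1 h1, map_zero, smul_zero, add_zero]
  have he : (X.prod X).IsCyc c (ε • exchange ops z) := SmVar.IsCyc.smul ε (ops.pull_mem _ hz)
  have hs : (X.prod X).IsCyc c (z + ε • exchange ops z) := SmVar.IsCyc.add hz he
  have hn' : NumZero ops (X.prod X) c (exchange ops z) := numZero_pull hz hc hn _ W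
  have hcl : W.cl _ (z + ε • exchange ops z) =
      W.cl _ z + (ε : W.K) • W.map (swap X X) (W.cl _ z) := by
    rw [map_add, cl_smul, exchange_cl]
  have h1 := h (z + ε • exchange ops z) hs ?_ ?_
  · rwa [hcl] at h1
  · rw [numZero_iff (W := W) hs hc]
    intro w hw
    rw [map_add, cl_smul, add_mul, map_add, (numZero_iff (W := W) hz hc).1 hn w hw,
      smul_mul_assoc, map_smul,
      (numZero_iff (W := W) (show (X.prod X).IsCyc c (exchange ops z) from ops.pull_mem _ hz)
        hc).1 hn' w hw, smul_zero, add_zero]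
  · beta_reduce
    rw [hcl, map_add, map_smul, Pool.Agent.W552.swap_swap, smul_add, smul_smul, hε', one_smul,
      add_comm]

theorem sign_of {c : ℕ} (h : NumIsHom W (X.prod X) c) (ε : ℚ) : SignNumIsHom W X ε c :=
  fun z hz hn _ => h z hz hn trivial

theorem partial_of {f : X ⟶ X} {q c : ℕ} (h : NumIsHom W (X.prod X) c) :
    PartialNumIsHom W X f q c :=
  fun _ _ z hz hn _ => h z hz hn trivial

end Pool.Agent.H846.Swp
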