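import Pool.Graph.R_pool_sql_team_seeded_b0a926ef.R911.Iso.Defs
import Pool.Graph.R_seed8.H914R2.HodgeDefs
import Pool.Graph.R_seed8.H914R2.KDefs2

/-!
# Cycles on `X × X` and the exchange of the factors: definitions
-/

open CategoryTheory AlgebraicGeometry

universe u v

namespace Pool.Agent.H846.Swp

open Pool.Agent.H914 Pool.Agent.H914.VarClass Pool.Agent.H914.VarClass.Obj
  Pool.Agent.R911.Iso

variable {k : Type u} [Field k] {𝒱 : VarClass k}

variable {ops : CycleOps 𝒱}

/-- The cycles of codimension `c` on `Z` whose class has the property `P` and which are numerically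
equivalent to zero are homologically equivalent to zero. -/
def NumIsHomOn (W : WeilCohomology.{u, v} ops) (Z : 𝒱.Obj) (c : ℕ) (P : W.H Z → Prop) : Prop :=
  ∀ z, Z.IsCyc c z → NumZero ops Z c z → P (W.cl Z z) → W.cl Z z = 0

/-- Homological and numerical equivalence coincide for the cycles of codimension `c` on `Z`. -/
def NumIsHom (W : WeilCohomology.{u, v} ops) (Z : 𝒱.Obj) (c : ℕ) : Prop :=
  NumIsHomOn W Z c fun _ => True

/-- Homological and numerical equivalence coincide for the cycles of codimension `c` on `X × X`
whose class is multiplied by `ε` by the exchange of the two factors: for the symmetric cycles if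
`ε = 1`, for the antisymmetric cycles if `ε = -1`. -/
def SignNumIsHom (W : WeilCohomology.{u, v} ops) (X : 𝒱.Obj) (ε : ℚ) (c : ℕ) : Prop :=
  NumIsHomOn W (X.prod X) c fun x => W.map (swap X X) x = (ε : W.K) • x

/-- `F ^ n x = q ^ e x`, where `F` is the endomorphism of `H(X)` induced by `f`. -/
def IsScaled (W : WeilCohomology.{u, v} ops) {X : 𝒱.Obj} (f : X ⟶ X) (n q e : ℕ) (x : W.H X) :
    Prop := (W.map f)^[n] x = (q : W.K) ^ e • x

/-- The classes `x ≠ 0` with `F ^ (2 m) x = q ^ (m c) x` for some `m ≥ 1`, where `F` is the
endomorphism induced by the Frobenius endomorphism `f` (they lie in `H^c(X)` by the Riemann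
hypothesis, and are sums of eigenclasses whose eigenvalues are `q ^ (c / 2)` times roots of unity)
are linear combinations of classes of algebraic cycles of codimension `l`, `2 l = c`. For even `c`
this is the Tate conjecture for `X` in codimension `c / 2`; for odd `c` it means that there are no
such classes. -/
def TateClassesAlgebraic (W : WeilCohomology.{u, v} ops) (X : 𝒱.Obj) (f : X ⟶ X) (q c : ℕ) :
    Prop :=
  ∀ m ≥ 1, ∀ x, IsScaled W f (2 * m) q (m * c) x →
    x = 0 ∨ ∃ l : ℕ, 2 * l = c ∧ x ∈ spanCycles W X l

/-- The partial endomorphism `f × 1` of `X × X`. -/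
noncomputable def partialMap {X : 𝒱.Obj} (f : X ⟶ X) : X.prod X ⟶ X.prod X :=
  Obj.lift (fst X X ≫ f) (snd X X)

/-- Numerical and homological equivalence agree for those cycles `z` of codimension `c` on `X × X`
on whose class the iterate `f ^ (2 m) × 1` of the partial endomorphism `f × 1` acts as
multiplication by `q ^ (m c)`, for some `m ≥ 1`. -/
def PartialNumIsHom (W : WeilCohomology.{u, v} ops) (X : 𝒱.Obj) (f : X ⟶ X) (q c : ℕ) : Prop :=
  ∀ m ≥ 1, NumIsHomOn W (X.prod X) c (IsScaled W (partialMap f) (2 * m) q (m * c))

/-- For the cycles of codimension `c` on `X × X` homological and numerical equivalence coincide if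
and only if they coincide for the symmetric cycles and for those on whose class some
`f ^ (2 m) × 1` acts as multiplication by `q ^ (m c)`; and the same with antisymmetric cycles. -/
def DecidedByHalf (W : WeilCohomology.{u, v} ops) (X : 𝒱.Obj) (f : X ⟶ X) (q c : ℕ) : Prop :=
  (NumIsHom W (X.prod X) c ↔ SignNumIsHom W X 1 c ∧ PartialNumIsHom W X f q c) ∧
    (NumIsHom W (X.prod X) c ↔ SignNumIsHom W X (-1) c ∧ PartialNumIsHom W X f q c)

/-- The Tate classes in `H^c(X)` are algebraic (for odd `c`: there are none except zero), and
homological and numerical equivalence coincide for the cycles of codimension `c / 2` on `X`, if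
`c` is even. -/
def TateIn (W : WeilCohomology.{u, v} ops) (X : 𝒱.Obj) (f : X ⟶ X) (q c : ℕ) : Prop :=
  TateClassesAlgebraic W X f q c ∧ ∀ l, 2 * l = c → NumIsHom W X l

/-- For the cycles of codimension `c` on `X × X` homological and numerical equivalence coincide if
and only if they coincide for the symmetric ones, if and only if they coincide for the antisymmetric
ones. -/
def HalfDecides (W : WeilCohomology.{u, v} ops) (X : 𝒱.Obj) (c : ℕ) : Prop :=
  List.TFAE [NumIsHom W (X.prod X) c, SignNumIsHom W X 1 c, SignNumIsHom W X (-1) c]

/-- Homological and numerical equivalence coincide on `X × X` (for the cycles of all codimensions)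
if and only if they coincide on `Y`, if and only if they coincide for the cycles of codimension
`dim X` and `dim X + 1` on `Y`. -/
def SquareIffHilb (W : WeilCohomology.{u, v} ops) (X Y : 𝒱.Obj) : Prop :=
  List.TFAE [∀ c, NumIsHom W (X.prod X) c, ∀ c, NumIsHom W Y c,
    NumIsHom W Y X.dim ∧ NumIsHom W Y (X.dim + 1)]

end Pool.Agent.H846.Swp
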